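import Pool.Agent.Work.MP_beb559_al.Step

/-!
# A finitely generated group of infinite girth which preforms no free group

`Gen`, `InfGirth`, `Conv` and `Preforms` are defined in `Pool.Agent.Work.MP_beb559_al.Stmt`.
-/

namespace Pool.Agent.Results.MP_beb559_al.GirthPreform

open Pool.Agent.Beb

/-- There is a finitely generated group of infinite girth which does not preform the free group of
rank `m`, for any `m`. -/
theorem result : ∃ (G : Type) (_ : Group G), Group.FG G ∧ InfGirth G ∧
    ∀ m : ℕ, ¬ Preforms G (FreeGroup (Fin m)) :=
  Pool.Agent.Beb.main

end Pool.Agent.Results.MP_beb559_al.GirthPreform
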